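import Pool.Agent.Helper26.LU.Goals
import Pool.Agent.Helper51.LU.S1
import Pool.Agent.Helper51.LU.S2
import Pool.Agent.Helper8.LU.T2

/-!
# Packet LU-TB: the second family is admissible
-/

set_option autoImplicit false

namespace Pool.Agent.Helper24.LU

open MeasureTheory Matrix Real Filter Topology
open Pool.Agent.Helper26.LU

section general

variable {E : Type} [NormedAddCommGroup E] [NormedSpace ℝ E] {x₀ : E}

theorem cd_Rot {f : E → ℝ} (hf : ContDiffAt ℝ 2 f x₀) :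
    ContDiffAt ℝ 2 (fun x => (fun i j => Rot (f x) i j : Fin 3 → Fin 3 → ℝ)) x₀ := by
  have hc : ContDiffAt ℝ 2 (fun x => cos (f x)) x₀ := hf.cos
  have hs : ContDiffAt ℝ 2 (fun x => sin (f x)) x₀ := hf.sin
  refine contDiffAt_pi.2 fun i => contDiffAt_pi.2 fun j => ?_
  fin_cases i <;> fin_cases j <;> simp [Rot] <;>
    first | exact contDiffAt_const | exact hc | exact hs | exact hs.neg

/-- The matrix `R * Sm j x y` depends smoothly on everything. -/
theorem cd_RSm (j : Fin 4) {g : E → Fin 3 → Fin 3 → ℝ} {a b : E → ℝ}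
    (hg : ContDiffAt ℝ 2 g x₀) (ha : ContDiffAt ℝ 2 a x₀) (hb : ContDiffAt ℝ 2 b x₀) :
    ContDiffAt ℝ 2 (fun x => (fun p q => ((Matrix.of (g x) : M3) * Sm j (a x) (b x)) p q :
      Fin 3 → Fin 3 → ℝ)) x₀ := by
  have h1 := cd_Rot ha
  have h2 := cd_Rot hb
  have h3 : ContDiffAt ℝ 2 (fun _ : E => (fun p q => sg 1 p q : Fin 3 → Fin 3 → ℝ)) x₀ :=
    contDiffAt_const
  have h4 : ContDiffAt ℝ 2 (fun _ : E => (fun p q => Bm (e j) (e 1) p q :
    Fin 3 → Fin 3 → ℝ)) x₀ := contDiffAt_const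
  exact Helper51.LU.cd_mul hg (Helper51.LU.cd_mul (Helper51.LU.cd_mul
    (Helper51.LU.cd_mul h1 h3) h2) h4)

end general

theorem Sm_per (j : Fin 4) (x y : ℝ) :
    Sm j (x + 2 * π) y = Sm j x y ∧ Sm j x (y + 2 * π) = Sm j x y := by
  simp only [Sm, Rot_per, and_self]

theorem gTB : G_TB := by
  intro N M j n p q
  have hcd : ∀ Q : M3, ∀ z : ℝ × ℝ, ContDiffAt ℝ 2 (fun x : Par N × ℝ × ℝ =>
      (fun i k => ((Matrix.of x.1.2 : M3) * Sm j x.2.1 x.2.2) i k : Fin 3 → Fin 3 → ℝ))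
      (((0, Q) : Par N), z) := by
    intro Q z
    refine cd_RSm j ?_ ?_ ?_
    · exact contDiffAt_snd.comp _ contDiffAt_fst
    · exact contDiffAt_fst.comp _ contDiffAt_snd
    · exact contDiffAt_snd.comp _ contDiffAt_snd
  refine ⟨?_, ?_, ?_, ?_, ?_, ?_⟩
  · intro p x y
    simp only [FB, Sm_per, and_self]
  · intro r x y
    simp only [hB, Sm_per, and_self]
  · intro Q hQ z
    have ha : ContDiffAt ℝ 2 (fun x : Par N × ℝ × ℝ => x.1.1) (((0, Q) : Par N), z) :=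
      contDiffAt_fst.comp _ contDiffAt_fst
    exact Helper51.LU.cd_yv Helper51.LU.gS1 M j ha (hcd Q z)
  · intro Q hQ z
    have h1 := hcd Q z
    unfold hB
    refine contDiffAt_prod fun i _ => ?_
    exact contDiffAt_pi.1 (contDiffAt_pi.1 h1 (p i)) (q i)
  · intro Q hQ z
    obtain ⟨x, y⟩ := z
    rw [FB_zero]
    exact sph_ne (mulVec_sph (SO3_mul (SO3_mul (SO3_mul hQ (Rot_SO3 x)) (sg_SO3 1)) (Rot_SO3 y))
      (e_sph 1))
  · intro Q hQ
    have h1 := Helper8.LU.gT2 Q hQ (sg 1) (sg_SO3 1) 1 1 (sg_e0 1) (by decide) (by decide)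
    have h2 : (fun z : ℝ × ℝ => FB N M j ((0, Q), z))
        = fun z : ℝ × ℝ => (Q * Rot z.1 * sg 1 * Rot z.2) *ᵥ e 1 := by
      funext z
      exact FB_zero N M j z.1 z.2
    rw [h2]
    exact h1

end Pool.Agent.Helper24.LU
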