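import Pool.Agent.Helper26.LU.Goals

/-!
# Packet LU-TU: uniform version of the total variation lemma
-/

set_option autoImplicit false

namespace Pool.Agent.Helper24.LU

open MeasureTheory Matrix Real Filter Topology
open Pool.Agent.Helper26.LU

theorem gTU (hT1 : G_T1) : G_TU := by
  intro N F h hok η hη
  have hη2 : 0 < η / 2 := by linarith
  set P : M3 → Par N → Prop := fun Q₀ p =>
    Continuous (fun z => F (p, z)) ∧ Continuous (fun z => h (p, z)) ∧ (∀ z, F (p, z) ≠ 0) ∧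
    ∀ (g : V → ℝ) (E : ℝ), ContinuousOn g sph → (∀ u ∈ sph, |g u| ≤ E) →
      |tavg (fun x y => h (p, x, y) * g (proj (F (p, x, y))))
        - tavg (fun x y => h ((0, Q₀), x, y) * g (proj (F ((0, Q₀), x, y))))| ≤ η / 2 * E with hP
  have hev : ∀ Q₀ : ↥SO3, ∃ ε : ℝ, 0 < ε ∧ ∀ p : Par N,
      dist p ((0, (Q₀.1 : Fin 3 → Fin 3 → ℝ)) : Par N) < ε → P Q₀.1 p := by
    intro Q₀
    have h1 := hT1 N F h (0, Q₀.1) hok.per hok.hper (hok.smooth Q₀.1 Q₀.2) (hok.hsmooth Q₀.1 Q₀.2)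
      (hok.nz Q₀.1 Q₀.2) (hok.jac Q₀.1 Q₀.2) (η / 2) hη2
    obtain ⟨ε, hε, hb⟩ := Metric.eventually_nhds_iff.1 h1
    exact ⟨ε, hε, fun p hp => hb hp⟩
  choose ε hε hb using hev
  set K : Set (Fin 3 → Fin 3 → ℝ) := {Q | Matrix.of Q ∈ SO3} with hKd
  have hK : IsCompact ({(0 : Idx N → ℝ)} ×ˢ K : Set (Par N)) :=
    isCompact_singleton.prod isCompact_SO3
  obtain ⟨δ, hδ, hL⟩ := lebesgue_number_lemma_of_metric (ι := ↥SO3)
    (c := fun Q₀ => Metric.ball ((0, (Q₀.1 : Fin 3 → Fin 3 → ℝ)) : Par N) (ε Q₀)) hK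
    (fun Q₀ => Metric.isOpen_ball) (by
      rintro ⟨a, Q⟩ ⟨ha, hQ⟩
      rw [Set.mem_singleton_iff] at ha
      simp only at ha hQ
      subst ha
      exact Set.mem_iUnion.2 ⟨⟨Q, hQ⟩, Metric.mem_ball_self (hε _)⟩)
  refine ⟨δ / 2, by linarith, fun a ha Q hQ Q' hQ' hQQ => ?_⟩
  obtain ⟨Q₀, hQ₀⟩ := hL ((0, (Q : Fin 3 → Fin 3 → ℝ)) : Par N) ⟨rfl, hQ⟩
  have h1 : P Q₀.1 ((0, (Q : Fin 3 → Fin 3 → ℝ)) : Par N) :=
    hb Q₀ _ (Metric.mem_ball.1 (hQ₀ (Metric.mem_ball_self hδ)))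
  have h2 : P Q₀.1 ((a, (Q' : Fin 3 → Fin 3 → ℝ)) : Par N) := by
    refine hb Q₀ _ (Metric.mem_ball.1 (hQ₀ (Metric.mem_ball.2 ?_)))
    rw [Prod.dist_eq]
    refine max_lt ?_ ?_
    · show dist a 0 < δ
      rw [dist_zero_right]
      linarith
    · have h3 : dist (fun i j => Q' i j : Fin 3 → Fin 3 → ℝ) (fun i j => Q i j) ≤ δ / 2 := by
        rw [dist_pi_le_iff (by linarith)]
        intro i
        rw [dist_pi_le_iff (by linarith)]
        intro j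
        rw [Real.dist_eq, abs_sub_comm]
        exact hQQ i j
      show dist (fun i j => Q' i j : Fin 3 → Fin 3 → ℝ) (fun i j => Q i j) < δ
      linarith
  obtain ⟨c1, c2, c3, c4⟩ := h2
  obtain ⟨-, -, -, d4⟩ := h1
  refine ⟨c1, c2, c3, fun g E hg hE => ?_⟩
  have e1 := c4 g E hg hE
  have e2 := d4 g E hg hE
  rw [abs_le] at e1 e2 ⊢
  constructor
  · linarith [e1.1, e2.2]
  · linarith [e1.2, e2.1]

end Pool.Agent.Helper24.LU
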